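import Pool.Agent.Helper55.TY.M11

/-!
MP_8ee768_co, project TH-Y': division of big roots of the machine M11.

A state is a triple (parities, free blocks, pair word). A code `l` is a list of moves, 12 bits
each, lowest first: `m < 2048` puts the block with mask `m` in, `2048 + m` puts it out; `mvS l` is the
state reached. `runT` is the machine with leaves: the digit 0 of the stream is followed by the
index of a leaf; the state must be the one reached from the base state by the code of this leaf.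
A piece `pc` runs `runT` from `mvS l`. `DL D`: all states `mvS l`, `l` in `D`, are dead;
`DL.step` adds one piece whose leaves are in `D`.
-/

set_option autoImplicit false
set_option exponentiation.threshold 40000

namespace Pool.Agent.Helper89.TY.Seg11

open Finset Pool.Agent.Helper63.SIMD Pool.Agent.Helper97.CV Pool.Agent.Helper97.CV.Cube
open Pool.Agent.Helper97.CV.Kill11
open Pool.Agent.Helper89.CV (OddCover ofMask)
open Pool.Agent.Helper55.TY
open Pool.Agent.Helper55.TY.M11

/-- the state after one move -/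
def mv1 (x P FR f : ℕ) (κ : ℕ → ℕ → ℕ → Bool) : Bool :=
  (fun b =>
    @Bool.rec (fun _ => Bool)
      (force x (Nat.xor FR b) fun FR => κ P FR f)
      ((fun t => (fun W =>
        @Nat.rec (fun _ => Bool)
          (force x (Nat.xor P t) fun P => force x (Nat.xor FR b) fun FR => κ P FR f)
          (fun _ _ => force x (Nat.add (Nat.land (Nat.shiftRight (Nat.mul W cC2) 16376) cM2) f)
            fun f => force x (Nat.xor P t) fun P => force x (Nat.xor FR b) fun FR => κ P FR f)
          W) (Nat.land t P)) (Nat.land (Nat.shiftRight (Nat.mul cC1 b) 8192) cQM))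
      (Nat.blt x 2048))
  (Nat.pow 2 (Nat.mul 8 (Nat.mod x 2048)))

/-- the moves of the code `l` from the state, then the test `κ` -/
def mvs (n : ℕ) : ℕ → ℕ → ℕ → ℕ → (ℕ → ℕ → ℕ → Bool) → Bool :=
  @Nat.rec (fun _ => ℕ → ℕ → ℕ → ℕ → (ℕ → ℕ → ℕ → Bool) → Bool) (fun _ P FR f κ => κ P FR f)
    (fun n ih l P FR f κ =>
      @Nat.rec (fun _ => Bool) (κ P FR f) (fun _ _ => force n (Nat.div l 4096) fun l' =>
        force n (Nat.mod l 4096) fun x => mv1 x P FR f fun P FR f => ih l' P FR f κ) l) n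

/-- the search with leaves -/
def runT (K : ℕ → Bool) (lf : ℕ → ℕ → ℕ → ℕ → Bool) (d : ℕ) : ℕ → ℕ → ℕ → ℕ → ℕ :=
  @Nat.rec (fun _ => ℕ → ℕ → ℕ → ℕ → ℕ) (fun _ _ _ _ => 0) (fun _ rn c P FR f =>
    force c P fun P => force c FR fun FR => force c f fun f =>
    @Nat.rec (fun _ => ℕ)
      (@Bool.rec (fun _ => ℕ) 0 (Nat.div c 4194304) (lf (Nat.mod (Nat.div c 2048) 2048) P FR f))
      (fun _ _ => (fun Q =>
        @Nat.rec (fun _ => ℕ) 0 (fun _ _ => force c (Nat.div c 2048) fun c' =>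
          childs K rn P f 8 c' (Nat.land FR (Nat.mul cC8 Q)) FR)
          (Nat.land (Nat.xor cQ P) Q))
        (Nat.pow 2 (Nat.mul 8 (Nat.mod c 2048))))
      (Nat.mod c 2048)) d

/-- element number `k` of a list, or 0 -/
def nth (ls : List ℕ) : ℕ → ℕ :=
  @List.rec ℕ (fun _ => ℕ → ℕ) (fun _ => 0)
    (fun x _ ih k => @Nat.rec (fun _ => ℕ) x (fun k' _ => ih k') k) ls

/-- the leaf test: the state is the one reached from the base by the moves of the leaf -/
def lfT (P0 FR0 f0 : ℕ) (ls : List ℕ) (k P FR f : ℕ) : Bool :=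
  @Nat.rec (fun _ => Bool) false
    (fun _ _ => mvs 512 (nth ls k) P0 FR0 f0 fun P' FR' f' =>
      Nat.beq P P' && (Nat.beq FR FR' && Nat.beq f f')) (nth ls k)

/-- a piece: the state reached by the moves `l` is killed, or the stream closes it, up to the
leaves -/
def pc (K : ℕ → Bool) (P FR f l : ℕ) (ls : List ℕ) (c : ℕ) : Bool :=
  mvs 512 l P FR f fun P' FR' f' =>
    @Bool.rec (fun _ => Bool) (Nat.blt 0 (runT K (lfT P FR f ls) 64 c P' FR' f')) true (K f')

/-! ### soundness -/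

/-- no family with the property `H` fits to the state -/
def StDead (H : Finset Blk → Prop) (P FR f : ℕ) : Prop :=
  ∀ B, H B → ∀ (SP SF : Finset ℕ) (p : ℕ → ℕ), Inv B SP SF p → g SP = P → g SF = FR →
    pk 8 2048 p = f → False

/-- the specification of one move -/
def mS (x P FR f : ℕ) : ℕ × ℕ × ℕ :=
  if x < 2048 then
    (Nat.xor P (Nat.land (Nat.shiftRight (Nat.mul cC1 (2 ^ (8 * (x % 2048)))) 8192) cQM),
      Nat.xor FR (2 ^ (8 * (x % 2048))),
      if Nat.land (Nat.land (Nat.shiftRight (Nat.mul cC1 (2 ^ (8 * (x % 2048)))) 8192) cQM) P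
        = 0 then f else Nat.add (Nat.land (Nat.shiftRight (Nat.mul (Nat.land (Nat.land
          (Nat.shiftRight (Nat.mul cC1 (2 ^ (8 * (x % 2048)))) 8192) cQM) P) cC2) 16376) cM2) f)
  else (P, Nat.xor FR (2 ^ (8 * (x % 2048))), f)

/-- the specification of the moves -/
def mvS (n : ℕ) : ℕ → ℕ → ℕ → ℕ → ℕ × ℕ × ℕ :=
  @Nat.rec (fun _ => ℕ → ℕ → ℕ → ℕ → ℕ × ℕ × ℕ) (fun _ P FR f => (P, FR, f))
    (fun _ ih l P FR f => if l = 0 then (P, FR, f) else
      ih (l / 4096) (mS (l % 4096) P FR f).1 (mS (l % 4096) P FR f).2.1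
        (mS (l % 4096) P FR f).2.2) n

theorem mv1_eq (x P FR f : ℕ) (κ : ℕ → ℕ → ℕ → Bool) :
    mv1 x P FR f κ = κ (mS x P FR f).1 (mS x P FR f).2.1 (mS x P FR f).2.2 := by
  unfold mv1 mS
  simp only [force_eq]
  have h3 : Nat.pow 2 (Nat.mul 8 (Nat.mod x 2048)) = 2 ^ (8 * (x % 2048)) := rfl
  rw [h3]
  by_cases hx : x < 2048
  · rw [if_pos hx, show Nat.blt x 2048 = true from (Nat.blt_eq ..).mpr hx]
    show @Nat.rec (fun _ => Bool) _ _ _ = _
    by_cases hW : Nat.land (Nat.land (Nat.shiftRight (Nat.mul cC1 (2 ^ (8 * (x % 2048)))) 8192)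
        cQM) P = 0
    · rw [if_pos hW, hW]
      exact rfl
    · rw [if_neg hW]
      obtain ⟨w, hw⟩ := Nat.exists_eq_succ_of_ne_zero hW
      rw [hw]
  · have h4 : Nat.blt x 2048 = false := by
      rw [Bool.eq_false_iff]
      intro h
      exact hx ((Nat.blt_eq ..).mp h)
    rw [if_neg hx, h4]

theorem mvs_succ (n l P FR f : ℕ) (κ : ℕ → ℕ → ℕ → Bool) : mvs (n + 1) l P FR f κ =
    @Nat.rec (fun _ => Bool) (κ P FR f) (fun _ _ => force n (Nat.div l 4096) fun l' =>
        force n (Nat.mod l 4096) fun x => mv1 x P FR f fun P FR f => mvs n l' P FR f κ) l := rfl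

theorem mvS_succ (n l P FR f : ℕ) : mvS (n + 1) l P FR f = if l = 0 then (P, FR, f) else
      mvS n (l / 4096) (mS (l % 4096) P FR f).1 (mS (l % 4096) P FR f).2.1
        (mS (l % 4096) P FR f).2.2 := rfl

theorem mvs_eq (n : ℕ) : ∀ (l P FR f : ℕ) (κ : ℕ → ℕ → ℕ → Bool),
    mvs n l P FR f κ = κ (mvS n l P FR f).1 (mvS n l P FR f).2.1 (mvS n l P FR f).2.2 := by
  induction n with
  | zero => exact fun _ _ _ _ _ => rfl
  | succ n ih =>
    intro l P FR f κ
    rw [mvs_succ, mvS_succ]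
    simp only [force_eq]
    by_cases hl : l = 0
    · rw [if_pos hl, hl]
      exact rfl
    · rw [if_neg hl]
      have h1 : Nat.div l 4096 = l / 4096 := rfl
      have h2 : Nat.mod l 4096 = l % 4096 := rfl
      rw [h1, h2, mv1_eq]
      simp only [ih]
      obtain ⟨x, hx⟩ := Nat.exists_eq_succ_of_ne_zero hl
      rw [hx]

theorem runT_succ (K : ℕ → Bool) (lf : ℕ → ℕ → ℕ → ℕ → Bool) (d c P FR f : ℕ) :
    runT K lf (d + 1) c P FR f =
    force c P fun P => force c FR fun FR => force c f fun f =>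
    @Nat.rec (fun _ => ℕ)
      (@Bool.rec (fun _ => ℕ) 0 (Nat.div c 4194304) (lf (Nat.mod (Nat.div c 2048) 2048) P FR f))
      (fun _ _ => (fun Q =>
        @Nat.rec (fun _ => ℕ) 0 (fun _ _ => force c (Nat.div c 2048) fun c' =>
          childs K (runT K lf d) P f 8 c' (Nat.land FR (Nat.mul cC8 Q)) FR)
          (Nat.land (Nat.xor cQ P) Q))
        (Nat.pow 2 (Nat.mul 8 (Nat.mod c 2048))))
      (Nat.mod c 2048) := rfl

theorem runT_zero (K : ℕ → Bool) (lf : ℕ → ℕ → ℕ → ℕ → Bool) (d : ℕ) :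
    ∀ P F f, runT K lf d 0 P F f = 0 := by
  cases d with
  | zero => exact fun _ _ _ => rfl
  | succ d =>
    intro P F f
    rw [runT_succ]
    simp only [force_eq]
    show @Bool.rec (fun _ => ℕ) 0 (Nat.div 0 4194304) (lf _ P F f) = 0
    have e : Nat.div 0 4194304 = 0 := rfl
    rw [e]
    generalize lf _ P F f = b
    cases b <;> rfl

theorem runT_sound {K : ℕ → Bool} {lf : ℕ → ℕ → ℕ → ℕ → Bool} {B : Finset Blk} (hB : OddCover B)
    (hK : KillOK K B)
    (hlf : ∀ k SP SF p, Inv B SP SF p → lf k (g SP) (g SF) (pk 8 2048 p) = false) (d : ℕ) :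
    ∀ (c : ℕ) (SP SF : Finset ℕ) (p : ℕ → ℕ), Inv B SP SF p →
      runT K lf d c (g SP) (g SF) (pk 8 2048 p) = 0 := by
  induction d with
  | zero => exact fun _ _ _ _ _ => rfl
  | succ d ih =>
    intro c SP SF p hinv
    rw [runT_succ]
    simp only [force_eq]
    have h0 : Nat.mod c 2048 = c % 2048 := rfl
    rw [h0]
    by_cases hz : c % 2048 = 0
    · rw [hz]
      show @Bool.rec (fun _ => ℕ) 0 (Nat.div c 4194304) (lf _ _ _ _) = 0
      rw [hlf _ SP SF p hinv]
    obtain ⟨y, hy⟩ := Nat.exists_eq_succ_of_ne_zero hz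
    rw [show (@Nat.rec (fun _ => ℕ)
      (@Bool.rec (fun _ => ℕ) 0 (Nat.div c 4194304) (lf (Nat.mod (Nat.div c 2048) 2048) (g SP)
        (g SF) (pk 8 2048 p)))
      (fun _ _ => (fun Q =>
        @Nat.rec (fun _ => ℕ) 0 (fun _ _ =>
          childs K (runT K lf d) (g SP) (pk 8 2048 p) 8 (Nat.div c 2048)
            (Nat.land (g SF) (Nat.mul cC8 Q)) (g SF))
          (Nat.land (Nat.xor cQ (g SP)) Q))
        (Nat.pow 2 (Nat.mul 8 (c % 2048))))
      (c % 2048) : ℕ) = (fun Q =>
        @Nat.rec (fun _ => ℕ) 0 (fun _ _ =>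
          childs K (runT K lf d) (g SP) (pk 8 2048 p) 8 (Nat.div c 2048)
            (Nat.land (g SF) (Nat.mul cC8 Q)) (g SF))
          (Nat.land (Nat.xor cQ (g SP)) Q))
        (Nat.pow 2 (Nat.mul 8 (c % 2048))) from by
      generalize hQ : Nat.pow 2 (Nat.mul 8 (c % 2048)) = Q
      rw [hy]]
    show @Nat.rec (fun _ => ℕ) 0 (fun _ _ =>
      childs K (runT K lf d) (g SP) (pk 8 2048 p) 8 (Nat.div c 2048) (Nat.land (g SF) (Nat.mul cC8
        (2 ^ (8 * (c % 2048))))) (g SF)) (Nat.land (Nat.xor cQ (g SP)) (2 ^ (8 * (c % 2048)))) = 0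
    have e1 : Nat.land (Nat.xor cQ (g SP)) (2 ^ (8 * (c % 2048))) =
        g (symmDiff Q4 SP ∩ {c % 2048}) := by
      rw [← g_singleton, ← g_land, ← g_xor, ← cQ_eq, raw_land, raw_xor]
    rw [e1, cand_word]
    by_cases hq : c % 2048 ∈ symmDiff Q4 SP
    · have h4 : c % 2048 ∈ Q4 ∧ c % 2048 ∉ SP := by
        rcases mem_symmDiff.1 hq with h | h
        · exact h
        · exact absurd ((hinv.par _).1 h.1).1 h.2
      obtain ⟨x, hx⟩ : ∃ x, g (symmDiff Q4 SP ∩ {c % 2048}) = x + 1 := by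
        refine Nat.exists_eq_succ_of_ne_zero fun h => ?_
        rw [g_eq_zero] at h
        have h5 : c % 2048 ∈ symmDiff Q4 SP ∩ {c % 2048} :=
          mem_inter.2 ⟨hq, mem_singleton_self _⟩
        rw [h] at h5
        exact absurd h5 (notMem_empty _)
      rw [hx]
      show childs K (runT K lf d) (g SP) (pk 8 2048 p) 8 (Nat.div c 2048)
        (g (Cand SF (c % 2048))) (g SF) = 0
      refine childs_sound hK (runT_zero K lf d) ih 8 _ _ _ (filter_subset _ _) hinv ?_
      refine exists_free hB hinv.free h4.1 fun ho => h4.2 ((hinv.par _).2 ⟨h4.1, ho⟩)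
    · have h5 : symmDiff Q4 SP ∩ {c % 2048} = ∅ := by
        rw [inter_comm, singleton_inter_of_notMem hq]
      rw [h5, g_empty]
      exact rfl

theorem nth_mem (ls : List ℕ) : ∀ k, nth ls k = 0 ∨ nth ls k ∈ ls := by
  induction ls with
  | nil => exact fun _ => Or.inl rfl
  | cons x ls ih =>
    intro k
    cases k with
    | zero => exact Or.inr (show x ∈ x :: ls from List.mem_cons_self)
    | succ k =>
      have e : nth (x :: ls) (k + 1) = nth ls k := rfl
      rw [e]
      rcases ih k with h | h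
      · exact Or.inl h
      · exact Or.inr (List.mem_cons_of_mem _ h)

/-- **a piece** -/
theorem pc_sound {H : Finset Blk → Prop} {K : ℕ → Bool} (hodd : ∀ B, H B → OddCover B)
    (hK : ∀ B, H B → KillOK K B) {P FR f l : ℕ} {ls : List ℕ} {c : ℕ}
    (h : pc K P FR f l ls c = true)
    (hls : ∀ l' ∈ ls, StDead H (mvS 512 l' P FR f).1 (mvS 512 l' P FR f).2.1
      (mvS 512 l' P FR f).2.2) :
    StDead H (mvS 512 l P FR f).1 (mvS 512 l P FR f).2.1 (mvS 512 l P FR f).2.2 := by
  intro B hB SP SF p hinv h1 h2 h3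
  unfold pc at h
  have key : ∀ k SP SF p, Inv B SP SF p → lfT P FR f ls k (g SP) (g SF) (pk 8 2048 p) = false := by
    intro k SP' SF' p' hinv'
    unfold lfT
    rcases nth_mem ls k with h4 | h4
    · rw [h4]
      exact rfl
    · rw [mvs_eq]
      obtain ⟨l', hl'⟩ : ∃ l', l' = nth ls k := ⟨_, rfl⟩
      rw [← hl'] at h4 ⊢
      cases l' with
      | zero => rfl
      | succ l' =>
        show (Nat.beq (g SP') (mvS 512 (l' + 1) P FR f).1 &&
          (Nat.beq (g SF') (mvS 512 (l' + 1) P FR f).2.1 &&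
          Nat.beq (pk 8 2048 p') (mvS 512 (l' + 1) P FR f).2.2)) = false
        rw [Bool.eq_false_iff]
        intro h5
        rw [Bool.and_eq_true, Bool.and_eq_true] at h5
        exact hls _ h4 B hB SP' SF' p' hinv' (Nat.eq_of_beq_eq_true h5.1)
          (Nat.eq_of_beq_eq_true h5.2.1) (Nat.eq_of_beq_eq_true h5.2.2)
  rw [mvs_eq, ← h1, ← h2, ← h3, runT_sound (hodd B hB) (hK B hB) key 64 c SP SF p hinv,
    hK B hB p (fun r hr => hinv.lam hr) hinv.zero] at h
  exact absurd h (by decide)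

/-- all states reached by the codes of the list are dead -/
def DL (H : Finset Blk → Prop) (P FR f : ℕ) (D : List ℕ) : Prop :=
  ∀ l ∈ D, StDead H (mvS 512 l P FR f).1 (mvS 512 l P FR f).2.1 (mvS 512 l P FR f).2.2

theorem DL.nil {H : Finset Blk → Prop} {P FR f : ℕ} : DL H P FR f [] :=
  fun _ h => absurd h List.not_mem_nil

/-- inclusion of lists -/
def subL (ls D : List ℕ) : Bool := ls.all fun l => D.any fun l' => Nat.beq l l'

/-- **one more piece** -/
theorem DL.step {H : Finset Blk → Prop} {K : ℕ → Bool} (hodd : ∀ B, H B → OddCover B)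
    (hK : ∀ B, H B → KillOK K B) {P FR f l : ℕ} {ls D : List ℕ} {c : ℕ} (hD : DL H P FR f D)
    (h : pc K P FR f l ls c = true) (hs : subL ls D = true) : DL H P FR f (l :: D) := by
  intro x hx
  rcases List.mem_cons.1 hx with rfl | hx
  · refine pc_sound hodd hK h fun l' hl' => hD l' ?_
    obtain ⟨y, hy, hy2⟩ := List.any_eq_true.1 (List.all_eq_true.1 hs l' hl')
    rw [Nat.eq_of_beq_eq_true hy2]
    exact hy
  · exact hD x hx

/-- the base state is dead -/
theorem DL.root {H : Finset Blk → Prop} {P FR f : ℕ} {D : List ℕ} (h : DL H P FR f (0 :: D)) :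
    StDead H P FR f := by
  have h1 := h 0 List.mem_cons_self
  rw [mvS_succ 511, if_pos rfl] at h1
  exact h1

end Pool.Agent.Helper89.TY.Seg11
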