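import Pool.Agent.Helper89.CV.ZFinal
import Pool.Agent.Helper64.TY.TCtx

/-!
MP_8ee768_co, project TH-Y', stage Z: the pair word of a root and the context of the kill test.
-/

set_option autoImplicit false
set_option exponentiation.threshold 20000

namespace Pool.Agent.Helper89.TY

open Finset Pool.Agent.Helper63.SIMD Pool.Agent.Helper97.CV Pool.Agent.Helper79.CV
open Pool.Agent.Helper33.CV Pool.Agent.Helper33.TY
open Pool.Agent.Helper89.CV (OddCover ofMask side)
open Pool.Agent.Helper67.TY (repA repB)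

/-- the pair word of the root: `T8`, `DT` words of the pair link, `C8` its part of the word -/
def qZ (T8 DT C8 e f : ℕ) : ℕ :=
  (fun x y => Nat.add (Nat.add (Nat.add x C8) (halfK T8 DT x))
    (Nat.add (Nat.mul 2 y) (halfK T8 DT y))) (eW e) (eW f)

/-- the covers of the root -/
def zC (T e f : ℕ) (B : Finset (Finset (Fin 13))) : Prop :=
  Pool.Agent.Helper89.CV.ZH B 12 11 ∧ link (link B 12) 11 = fam 11 3 T ∧
    side B 12 11 = fam 11 4 e ∧ side B 11 12 = fam 11 4 f

theorem zh_le157 {B : Finset (Finset (Fin 13))} {x y : Fin 13}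
    (h : Pool.Agent.Helper89.CV.ZH B x y) : B.card ≤ 157 := by
  have h1 := ten_card h.odd
  have h2 := h.sum
  omega

theorem zh_k7 {B : Finset (Finset (Fin 13))} (h : Pool.Agent.Helper89.CV.ZH B 12 11) :
    Pool.Agent.Helper64.TY.K7.ZH B := by
  refine ⟨h.odd, zh_le157 h, fun u hu => ?_⟩
  have hu2 := Pool.Agent.Helper64.TY.K7.ne_of_lt11 hu
  have h1 : ∑ z, MM B z = MM B u + ∑ z ∈ univ.erase u, MM B z :=
    (add_sum_erase univ (fun z => MM B z) (mem_univ u)).symm
  have h2 : ∑ z ∈ univ.erase u, (if z = 12 ∨ z = 11 then 0 else 8) ≤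
      ∑ z ∈ univ.erase u, MM B z := by
    refine sum_le_sum fun z _ => ?_
    split_ifs with hz
    · exact Nat.zero_le _
    · rw [not_or] at hz
      exact h.other z hz.1 hz.2
  have h3 : ∑ z ∈ univ.erase u, (if z = 12 ∨ z = 11 then 0 else 8) = 80 := by
    have h4 : ∀ u : Fin 13, u.val < 11 →
        ∑ z ∈ univ.erase u, (if z = 12 ∨ z = 11 then 0 else 8) = 80 := by decide
    exact h4 u hu
  have h5 := h.sum
  omega

/-- **the pair word of the root** -/
theorem qZ_eq {T e f : ℕ} (he : e < 2 ^ 330) (hf : f < 2 ^ 330) {B : Finset (Finset (Fin 13))}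
    (h : zC T e f B) :
    qZ (tW T) (degK (tW T)) (Nat.add (tW T) (exK (tW T))) e f = bw (qf B fun _ => 0) := by
  obtain ⟨hZ, h1, h2, h3⟩ := h
  rw [← pairQ_eq hZ.odd]
  have h4 : outer B 12 11 = fam 11 4 e := h2
  have h5 : outer B 11 12 = fam 11 4 f := h3
  rw [h1, h4, h5, ← tW_eq, ← eW_eq he, ← eW_eq hf]
  unfold qZ pairQ
  simp only [halfK_eq, degK_eq, exK_eq]
  generalize eW e = x
  generalize eW f = y
  generalize exW (tW T) = z
  generalize halfW (tW T) (degW (tW T)) x = u
  generalize halfW (tW T) (degW (tW T)) y = v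
  generalize tW T = w
  show x + (w + z) + u + (2 * y + v) = x + w + z + u + (2 * y + v)
  omega

end Pool.Agent.Helper89.TY
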