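import Pool.Agent.Helper89.TY.Seg11
import Pool.Agent.Helper89.TY.ZWord

/-!
MP_8ee768_co, project TH-Y', stage Z: from pieces of the machine M11 to dead pairs of table
entries. `zpc` is one piece of the root with the sides `fam 11 4 e`, `fam 11 4 f`, `DZ` the list
of its dead states, `DZ.step` one step, `DZ.pdead` the end.
-/

set_option autoImplicit false
set_option exponentiation.threshold 20000

namespace Pool.Agent.Helper89.TY

open Finset Pool.Agent.Helper63.SIMD Pool.Agent.Helper97.CV Pool.Agent.Helper79.CV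
open Pool.Agent.Helper33.CV Pool.Agent.Helper33.TY
open Pool.Agent.Helper89.CV (OddCover ofMask side PDead ZH pdead_of_root)
open Pool.Agent.Helper55.TY (g g_eq_pk g_xor)
open Pool.Agent.Helper55.TY.M11 (Inv Dec Rk inv_start cB cB_eq B5 Q4 force force_eq KillOK)
open Pool.Agent.Helper64.TY.K7 (k8 k8_ok rA10 rP rF rA10_eq rP_eq rF_data decK Rq)
open Pool.Agent.Helper89.TY.Seg11 (pc DL StDead subL)
open Pool.Agent.Helper25.TY (R11 mem_R11)
open Pool.Agent.Helper67.TY (repA repB)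
open Pool.Agent.Gen.TY.EN (a0_0 b0_0)

/-- one piece of the root -/
def zpc (T8 DT C8 e f l : ℕ) (ls : List ℕ) (c : ℕ) : Bool :=
  force e (qZ T8 DT C8 e f) fun Q => force e (rA10 Q) fun A => force e (rP Q) fun P =>
    force e (rF Q) fun F => pc (k8 A) P cB F l ls c

/-- the states of the root which are dead -/
def DZ (T8 DT C8 T e f : ℕ) (D : List ℕ) : Prop :=
  DL (zC T e f) (rP (qZ T8 DT C8 e f)) cB (rF (qZ T8 DT C8 e f)) D

theorem DZ.nil {T8 DT C8 T e f : ℕ} : DZ T8 DT C8 T e f [] := DL.nil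

/-- **one more piece** -/
theorem DZ.step {T8 DT C8 T e f l c : ℕ} {ls D : List ℕ}
    (hQ : ∀ B, zC T e f B → qZ T8 DT C8 e f = bw (qf B fun _ => 0)) (hD : DZ T8 DT C8 T e f D)
    (h : zpc T8 DT C8 e f l ls c = true) (hs : subL ls D = true) :
    DZ T8 DT C8 T e f (l :: D) := by
  unfold zpc at h
  simp only [force_eq] at h
  refine DL.step (K := k8 (rA10 (qZ T8 DT C8 e f))) (fun B hB => hB.1.odd) ?_ hD h hs
  intro B hB p hp hp0
  rw [hQ B hB, rA10_eq hB.1.odd (zh_le157 hB.1)]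
  exact k8_ok (zh_k7 hB.1) hp hp0

theorem Dec_B5 {B : Finset (Finset (Fin 13))} (hB : OddCover B) : Dec B B5 = decK B := by
  unfold Dec decK B5
  refine filter_congr fun b hb => ?_
  have h5 : b.card = 5 := hB.1 b hb
  rw [List.mem_toFinset, mem_L (by norm_num), ofMask_mk]
  constructor
  · intro h
    by_contra hc
    rw [not_or] at hc
    refine h ⟨?_, h5⟩
    rw [mk_lt_iff (n := 11)]
    intro a ha
    have h1 : a ≠ 12 := fun e => hc.1 (by rwa [← e])
    have h2 : a ≠ 11 := fun e => hc.2 (by rwa [← e])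
    omega
  · rintro h ⟨h1, _⟩
    rcases h with h | h
    · exact absurd (mk_lt_iff (n := 11).1 h1 12 h) (by decide)
    · exact absurd (mk_lt_iff (n := 11).1 h1 11 h) (by decide)

/-- **the end of a root** -/
theorem DZ.pdead {T8 DT C8 T e f : ℕ} {D : List ℕ}
    (hQ : ∀ B, zC T e f B → qZ T8 DT C8 e f = bw (qf B fun _ => 0))
    (hD : DZ T8 DT C8 T e f (0 :: D)) : PDead ZH T (fam 11 4 e) (fam 11 4 f) := by
  intro B hB h1 h2 h3
  have hC : zC T e f B := ⟨hB, h1, h2, h3⟩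
  have hodd := hB.odd
  have h157 := zh_le157 hB
  have hst := DL.root hD
  obtain ⟨p, hp, hp1, hp2⟩ := rF_data hodd h157
  have hp3 : ∀ r ∈ Pool.Agent.Helper97.CV.Kill11.P2, p r ≤ Lam (Dec B B5) (ofMask r) := by
    rw [Dec_B5 hodd]
    exact hp1
  refine hst B hC _ _ p (inv_start hodd hp3 hp2) ?_ cB_eq.symm ?_
  · rw [hQ B hC, rP_eq hodd h157, ← g_xor]
    rfl
  · rw [hQ B hC, hp]

/-- the pair words of the roots over `repA` -/
theorem hqA (i j : ℕ) : ∀ B, zC repA (a0_0.getD i 0) (a0_0.getD j 0) B →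
    qZ tyA dgA cmA (a0_0.getD i 0) (a0_0.getD j 0) = bw (qf B fun _ => 0) := by
  intro B hB
  have h := qZ_eq (Pool.Agent.Helper89.CV.a0_lt i) (Pool.Agent.Helper89.CV.a0_lt j) hB
  rwa [tyA_eq, dgA_eq, cmA_eq] at h

/-- the pair words of the roots over `repB` -/
theorem hqB (i j : ℕ) : ∀ B, zC repB (b0_0.getD i 0) (b0_0.getD j 0) B →
    qZ tyB dgB cmB (b0_0.getD i 0) (b0_0.getD j 0) = bw (qf B fun _ => 0) := by
  intro B hB
  have h := qZ_eq (Pool.Agent.Helper89.CV.b0_lt i) (Pool.Agent.Helper89.CV.b0_lt j) hB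
  rwa [tyB_eq, dgB_eq, cmB_eq] at h

end Pool.Agent.Helper89.TY
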